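import Mathlib
import Pool.Agent.Y224.AZ.Stm

/-!
# The operators on the first summand kill the invariant tensors
-/

namespace Pool.Agent.Y925.AZ

open Module Pool.Agent.H204R3.SP Pool.Agent.Y224.AZ

noncomputable section

open scoped Classical in
theorem t_use : S_USE := by
  intro K X Y Γ κ ι _ _ _ _ _ _ _ _ _ _ R Q a θ hθ hθQ ha T hT v y
  obtain ⟨y0, hy0⟩ : ∃ y0, θ y0 = 1 := by
    obtain ⟨y1, hy1⟩ : ∃ y1, θ y1 ≠ 0 := by
      by_contra hcon
      push Not at hcon
      exact hθ (LinearMap.ext hcon)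
    refine ⟨(θ y1)⁻¹ • y1, ?_⟩
    rw [map_smul, smul_eq_mul, inv_mul_cancel₀ hy1]
  -- the multilinear form
  let T1 : MultilinearMap K (fun _ : κ => X × Y) (MultilinearMap K (fun _ : ι => X × Y) K) :=
    ((MultilinearMap.compLinearMapₗ (fun _ : ι => LinearMap.snd K X Y)).compMultilinearMap
      T).compLinearMap (fun _ => LinearMap.fst K X Y)
  let A : MultilinearMap K (fun _ : κ ⊕ ι => X × Y) K := T1.uncurrySum
  let B : MultilinearMap K (fun _ : κ ⊕ ι => X × Y) K :=
    (MultilinearMap.mkPiAlgebra K (κ ⊕ ι) K).compLinearMap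
      (fun _ => θ.comp (LinearMap.snd K X Y))
  let g : MultilinearMap K (fun _ : κ ⊕ ι => X × Y)
      (MultilinearMap K (fun _ : κ ⊕ ι => X × Y) K) :=
    (LinearMap.toSpanSingleton K _ B).compMultilinearMap A
  let Φ0 : MultilinearMap K (fun _ : (κ ⊕ ι) ⊕ (κ ⊕ ι) => X × Y) K := g.uncurrySum
  have hΦ0 : ∀ z, Φ0 z = T (fun i => (z (Sum.inl (Sum.inl i))).1)
      (fun j => (z (Sum.inl (Sum.inr j))).2) * ∏ s, θ (z (Sum.inr s)).2 := fun z => rfl
  let m := Fintype.card κ + Fintype.card ι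
  let e : Fin m × Fin 2 ≃ (κ ⊕ ι) ⊕ (κ ⊕ ι) := Fintype.equivOfCardEq (by
    simp only [Fintype.card_prod, Fintype.card_fin, Fintype.card_sum, m]
    ring)
  let Φ : MultilinearMap K (fun _ : Fin m × Fin 2 => X × Y) K := Φ0.domDomCongr e.symm
  have hΦ : ∀ z, Φ z = Φ0 (fun s => z (e.symm s)) := fun z => rfl
  have hTate : IsTate (pr R Q) (1 : Γ →* K) m Φ := by
    obtain ⟨Δ, hΔ, h1⟩ := hT
    refine ⟨Δ, hΔ, fun s hs z => ?_⟩
    rw [hΦ, hΦ, hΦ0, hΦ0, MonoidHom.one_apply, one_pow, one_mul]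
    have h2 : ∀ w : X × Y, θ (pr R Q s w).2 = θ w.2 := fun w => hθQ s w.2
    have h3 : T (fun i => (pr R Q s (z (e.symm (Sum.inl (Sum.inl i))))).1)
        (fun j => (pr R Q s (z (e.symm (Sum.inl (Sum.inr j))))).2) =
        T (fun i => (z (e.symm (Sum.inl (Sum.inl i)))).1)
        (fun j => (z (e.symm (Sum.inl (Sum.inr j)))).2) := h1 s hs _ _
    rw [h3]
    congr 1
    exact Finset.prod_congr rfl fun x _ => h2 _
  have hK := ha m Φ hTate
  let zz : (κ ⊕ ι) ⊕ (κ ⊕ ι) → X × Y :=
    Sum.elim (Sum.elim (fun i => (v i, 0)) (fun j => (0, y j))) (fun _ => (0, y0))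
  let F : (κ ⊕ ι) ⊕ (κ ⊕ ι) → K := fun s =>
    Φ0 (Function.update zz s ((a.prodMap (0 : End K Y)) (zz s)))
  have h1 : ∑ k, F (e k) = 0 := by
    rw [← hK (fun k => zz (e k))]
    refine Finset.sum_congr rfl fun k _ => ?_
    show Φ0 _ = Φ _
    rw [hΦ]
    congr 1
    funext s
    by_cases hs : s = e k
    · subst hs
      rw [Function.update_self, Equiv.symm_apply_apply, Function.update_self]
    · rw [Function.update_of_ne hs, Function.update_of_ne, Equiv.apply_symm_apply]
      intro h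
      apply hs
      rw [← h, Equiv.apply_symm_apply]
  rw [Equiv.sum_comp e F, Fintype.sum_sum_type, Fintype.sum_sum_type] at h1
  have h2 : ∀ j, F (Sum.inl (Sum.inr j)) = 0 := by
    intro j
    refine Φ0.map_coord_zero (Sum.inl (Sum.inr j)) ?_
    rw [Function.update_self]
    show (a.prodMap (0 : End K Y)) (0, y j) = 0
    simp
  have h3 : ∀ s, F (Sum.inr s) = 0 := by
    intro s
    refine Φ0.map_coord_zero (Sum.inr s) ?_
    rw [Function.update_self]
    show (a.prodMap (0 : End K Y)) (0, y0) = 0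
    simp
  rw [Finset.sum_eq_zero fun j _ => h2 j, Finset.sum_eq_zero fun s _ => h3 s, add_zero,
    add_zero] at h1
  rw [← h1]
  refine Finset.sum_congr rfl fun i _ => ?_
  show _ = Φ0 _
  rw [hΦ0]
  have h4 : (a.prodMap (0 : End K Y)) (zz (Sum.inl (Sum.inl i))) = (a (v i), 0) := by
    show (a.prodMap (0 : End K Y)) (v i, 0) = _
    simp
  rw [h4]
  have h5 : (fun i' => (Function.update zz (Sum.inl (Sum.inl i)) (a (v i), (0 : Y))
      (Sum.inl (Sum.inl i'))).1) = Function.update v i (a (v i)) := by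
    funext i'
    by_cases hi : i' = i
    · subst hi
      rw [Function.update_self, Function.update_self]
    · rw [Function.update_of_ne, Function.update_of_ne hi]
      · rfl
      · intro h
        exact hi (Sum.inl_injective (Sum.inl_injective h))
  have h6 : (fun j => (Function.update zz (Sum.inl (Sum.inl i)) (a (v i), (0 : Y))
      (Sum.inl (Sum.inr j))).2) = y := by
    funext j
    rw [Function.update_of_ne]
    · rfl
    · intro h
      have := Sum.inl_injective h
      simp at this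
  have h7 : ∏ s, θ (Function.update zz (Sum.inl (Sum.inl i)) (a (v i), (0 : Y))
      (Sum.inr s)).2 = 1 := by
    refine Finset.prod_eq_one fun s _ => ?_
    rw [Function.update_of_ne (by simp)]
    exact hy0
  rw [h5, h6, h7, mul_one]

end

end Pool.Agent.Y925.AZ
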